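import Pool.Agent.Helper503_CP.CharA

/-!
# Artin motives over central products

`Pool.Agent.H541R3.ART.Irr G` is the set of irreducible complex characters of the finite group `G`.

`Pool.Agent.H541R3.ART.ArtinData G s₀` is a family of functions with the formal properties of the
Artin L-functions of a Galois extension `E/K` with group `G` near a point `s₀ ≠ 1`: functions
`L χ` for the irreducible characters `χ` of `G` and `Lin H ψ` for the linear characters `ψ` of the
subgroups `H`, such that `L χ` is meromorphic and not identically zero near `s₀` (Brauer), `Lin H ψ`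
has no pole at `s₀` (Artin reciprocity and Hecke), and `Lin H ψ` is the product of the
`L χ ^ ⟨χ|_H, ψ⟩` (induction). In particular `Lin ⊥ 1` stands for the Dedekind zeta function of `E`.

For `K = ℚ` an Artin motive `M` over `ℚ` with rational coefficients which is trivialised by `E` is
the same as a representation `V` of `G` over `ℚ`, and `L(M, s)` is the product of the
`L χ ^ ⟨V, χ⟩`. It is a Chow motive of a variety of dimension zero. The field `K` may be any number
field.

The group `G` is generated by pairwise commuting subgroups `H i` (a central product), for example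
`G` is the direct product of the Galois groups of linearly disjoint extensions of `K`. An irreducible
character `χ` of `G` is given by irreducible characters `χ_i` of the `H i`, and
`Pool.Agent.Helper503_CP.Seen H χ` is the set of the `i` with `χ_i` not linear. For a representation
`V` of `G` over `ℚ`, `Pool.Agent.Helper503_CP.Free H V` is the set of the `i` for which no nonzero
vector of `V` is fixed by the commutator subgroup of `H i`; if it is not empty, then `M` satisfies the
condition `(⋆)` of the problem.

`Pool.Agent.Helper503_CP.Weight μ H` says one of the following.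
* `μ ≤ 2`.
* `H` is a quotient of a finite group `S` with the property `Pool.Agent.TH820.FacO (μ - 1)` of the
  starting files, for example `SL_n(q)` with `q` odd and `3 ≤ μ ≤ n`, or the alternating group `A_m`
  with `m ≥ 5` and `μ ≤ (2 ^ j - 1) ⌊m / 2 ^ j⌋` for some `j ≥ 2`.
* Every Heilbronn function on `H` of degree less than `μ` is constant on the commutator subgroup of
  `H`. A Heilbronn function is a class function whose restriction to every subgroup has a nonnegative
  integer multiplicity against every linear character; its degree is its value at `1`.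
-/

set_option autoImplicit false

open Pool.Agent.H541R3.ART Pool.Agent.Helper503_CP

/-- Let `G` be the Galois group of `E/K` and let `r` be the order of `ζ_E` at `s₀`. Let `G` be
generated by pairwise commuting subgroups `H i`.

(1) If `χ` is an irreducible character of `G` such that `L χ` has a zero or a pole at `s₀`, and if
`k ≥ 1` of the components `χ_i` of `χ` are not linear, then `2 ^ k ≤ r`; and `2 ^ (k - 1) μ ≤ r` for
each of these `i` and each `μ` with `Weight μ (H i)`.

(2) If `V` is a representation of `G` over `ℚ` and if for `k ≥ 1` of the `i` no nonzero vector of `V`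
is fixed by the commutator subgroup of `H i`, then the L-function of the motive given by `V` has
neither a zero nor a pole at `s₀` if `r < 2 ^ k`; and also if `r < 2 ^ (k - 1) μ` with `Weight μ (H i)`
for one of these `i`. -/
theorem Pool.Agent.Results.MP_148101_nt.CentralProducts.result
    (G : Type) [Group G] [Finite G] (s₀ : ℂ) (A : ArtinData G s₀) (r : ℕ)
    (hr : meromorphicOrderAt (A.Lin ⊥ 1) s₀ = (r : WithTop ℤ)) (ι : Type) [Finite ι]
    (H : ι → Subgroup G) (hc : ∀ i j, i ≠ j → ∀ x ∈ H i, ∀ y ∈ H j, x * y = y * x)
    (hH : ⨆ i, H i = ⊤) :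
    (∀ χ ∈ Irr G, meromorphicOrderAt (A.L χ) s₀ ≠ 0 →
      2 ^ Nat.card (Seen H χ) ≤ r ∧
      ∀ i ∈ Seen H χ, ∀ μ, Weight μ (H i) → 2 ^ Nat.card (Seen H χ) * μ ≤ 2 * r) ∧
    (∀ (V : Type) [AddCommGroup V] [Module ℚ V] [FiniteDimensional ℚ V]
      (ρ : Representation ℚ G V) (m : (G → ℂ) → ℕ),
      (∀ χ ∈ Irr G,
        ∑ᶠ g : G, ((ρ.character g : ℚ) : ℂ) * χ g⁻¹ = (m χ : ℂ) * (Nat.card G : ℂ)) →
      (Free H ρ).Nonempty →
      (r < 2 ^ Nat.card (Free H ρ) ∨
        ∃ i ∈ Free H ρ, ∃ μ, Weight μ (H i) ∧ 2 * r < 2 ^ Nat.card (Free H ρ) * μ) →
      meromorphicOrderAt (fun s => ∏ᶠ χ ∈ Irr G, A.L χ s ^ m χ) s₀ = 0) := by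
  constructor
  · intro χ hχ h0
    refine ⟨?_, fun i hi μ hμ => central_product A hr hc hH hχ h0 hi hμ.deg⟩
    rcases (Seen H χ).eq_empty_or_nonempty with he | ⟨i, hi⟩
    · rw [he, Nat.card_of_isEmpty, pow_zero]
      by_contra hlt
      have hr0 : r = 0 := by omega
      exact h0 (order_zero A hr hr0 hχ)
    · have := central_product A hr hc hH hχ h0 hi (deg_two (H i))
      omega
  · rintro V _ _ _ ρ m hm ⟨i, hi⟩ (h | ⟨j, hj, μ, hμ, hlt⟩)
    · exact motive_product A hr hc hH ρ m hm hi (deg_two (H i)) (by omega)
    · exact motive_product A hr hc hH ρ m hm hj hμ.deg hlt
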