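import Mathlib
import Pool.Agent.Helper503_BS.ArtInf

/-!
# Artin motives of infinite composita

Let `F/K` be a finite or infinite Galois extension of a number field `K` with group `Γ`, for example
the compositum of infinitely many linearly disjoint Galois extensions `F_j` of `K`, and let `s₀ ≠ 1`
be a point, such that the orders of the zeros at `s₀` of the Dedekind zeta functions of the finite
Galois extensions of `K` in `F` are bounded by `r`. (It is expected that they are always bounded,
since `s₀` should be a zero of at most one Artin L-function of an irreducible character.) We show that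
all but at most `r / 2` of the extensions `F_j` contribute to the zeros and poles at `s₀` only through
their maximal abelian subextensions: there is a set `J` of at most `r / 2` indices such that
`L(s, χ)` has no zero and no pole at `s₀` for all irreducible Artin characters `χ` of `Γ` which are
not characters of the Galois group of the compositum `F_J` of the `F_j`, `j ∈ J`, and of the maximal
abelian subextensions of the `F_j`, `j ∉ J`.

For `K = ℚ` an Artin motive `M` over `ℚ` with rational coefficients which is trivialised by `F` is a
representation `V` over `ℚ` of a finite quotient `Γ ⧸ W k` of `Γ`, and `L(M, s)` is the product of the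
`L χ ^ ⟨V, χ⟩`. If `V` has no nonzero vector fixed by `Gal(F/F_J)`, then `L(M, s)` has no zero and no
pole at `s₀`.

More generally, the `H i` are any pairwise commuting normal subgroups of `Γ`, and `F_J` is the fixed
field of the commutator subgroups of the `H i`, `i ∉ J`. If the images of `H i` in the finite
quotients `Γ ⧸ W k` have weights `w i` (`Weight`, always true for `w i = 2`), then the sum of the
`w i`, `i ∈ J`, is at most `r`. A group `Y` has weight `w` if `w ≤ 2`, or if it is a quotient of a
group of the list `FacO (w - 1)` of the starting files, for example `SL_n(q)` for odd `q` and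
`n ≥ max(w, 3)`, or if every Heilbronn function on `Y` of degree less than `w` is constant on the
commutator subgroup of `Y`.

`Pool.Agent.H541R3.ART.ArtinData G s₀` is a family of functions with the formal properties of the
Artin L-functions of a Galois extension with group `G` near a point `s₀ ≠ 1`: functions `L χ` for the
irreducible characters `χ` of `G` and `Lin H ψ` for the linear characters `ψ` of the subgroups `H`,
such that `L χ` is meromorphic and not identically zero near `s₀` (Brauer), `Lin H ψ` has no pole at
`s₀` (Artin reciprocity and Hecke), and `Lin H ψ` is the product of the `L χ ^ ⟨χ|_H, ψ⟩`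
(induction). `Lin ⊥ 1` stands for the Dedekind zeta function. `Compat D` says that the orders of the
L-functions at `s₀` do not change if a character of `Γ ⧸ W k` is inflated to `Γ ⧸ W k'`,
`W k' ≤ W k`.
-/

set_option autoImplicit false

open Pool.Agent.H541R3.ART Pool.Agent.Helper503_CP Pool.Agent.Helper503_BS

/-- Let `W k` be a directed family of normal subgroups of finite index of `Γ` (the Galois groups of
`F` over the finite Galois subextensions of `F/K`), with Artin L-functions `D k` of the quotients, and
let the order at `s₀` of the Dedekind zeta function `(D k).Lin ⊥ 1` be at most `r` for all `k`. Let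
`H i` be pairwise commuting normal subgroups of `Γ` with weights `w i > 0`. Then there is a finite set
`J` of indices with `∑ w i ≤ r`, `i ∈ J`, such that with the subgroup `N` generated by the commutator
subgroups of the `H i`, `i ∉ J`:

(1) `L χ` has neither a zero nor a pole at `s₀` for every `k` and every irreducible character `χ` of
`Γ ⧸ W k` which is not trivial on (the image of) `N`.

(2) The L-function of the Artin motive given by a representation of `Γ ⧸ W k` over `ℚ` without nonzero
`N`-fixed vectors has neither a zero nor a pole at `s₀`. -/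
theorem Pool.Agent.Results.MP_148101_nt.InfiniteComposita.result
    (Γ : Type) [Group Γ] (κ : Type) [Nonempty κ] (W : κ → Subgroup Γ) [∀ k, (W k).Normal]
    (hfin : ∀ k, (W k).index ≠ 0) (hdir : ∀ i j, ∃ k, W k ≤ W i ∧ W k ≤ W j) (s₀ : ℂ)
    (D : ∀ k, ArtinData (Γ ⧸ W k) s₀) (hD : Compat D) (r : ℕ)
    (hr : ∀ k, meromorphicOrderAt ((D k).Lin ⊥ 1) s₀ ≤ (r : WithTop ℤ))
    (ι : Type) (H : ι → Subgroup Γ) (hn : ∀ i, (H i).Normal)
    (hc : ∀ i j, i ≠ j → ∀ a ∈ H i, ∀ b ∈ H j, a * b = b * a)
    (w : ι → ℕ) (hw0 : ∀ i, 0 < w i)
    (hw : ∀ i k, Weight (w i) ((H i).map (QuotientGroup.mk' (W k)))) :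
    ∃ (J : Finset ι) (N : Subgroup Γ), N = ⨆ i : {i // i ∉ J}, ⁅H i, H i⁆ ∧ N.Normal ∧
      ∑ i ∈ J, w i ≤ r ∧
      (∀ k, ∀ χ ∈ Irr (Γ ⧸ W k), (∃ x ∈ N.map (QuotientGroup.mk' (W k)), χ x ≠ χ 1) →
        meromorphicOrderAt ((D k).L χ) s₀ = 0) ∧
      (∀ k, ∀ (V : Type) [AddCommGroup V] [Module ℚ V] [FiniteDimensional ℚ V]
        (ρ : Representation ℚ (Γ ⧸ W k) V) (m : (Γ ⧸ W k → ℂ) → ℕ),
        (∀ χ ∈ Irr (Γ ⧸ W k), ∑ᶠ g : Γ ⧸ W k, ((ρ.character g : ℚ) : ℂ) * χ g⁻¹
          = (m χ : ℂ) * (Nat.card (Γ ⧸ W k) : ℂ)) →
        (∀ v, (∀ n ∈ N.map (QuotientGroup.mk' (W k)), ρ n v = v) → v = 0) →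
        meromorphicOrderAt (fun s => ∏ᶠ χ ∈ Irr (Γ ⧸ W k), (D k).L χ s ^ m χ) s₀ = 0) := by
  obtain ⟨J, N, hN, hNn, hJ, h1⟩ := artin_composita_sup hfin hdir D hD hr hn hc w hw0 hw
  refine ⟨J, N, hN, hNn, hJ, h1, ?_⟩
  intro k V _ _ _ ρ m hm hfix
  have hF : Finite (Γ ⧸ W k) := by
    have : (W k).FiniteIndex := ⟨hfin k⟩
    exact Subgroup.finite_quotient_of_finiteIndex
  have hNk : (N.map (QuotientGroup.mk' (W k))).Normal :=
    hNn.map _ (QuotientGroup.mk'_surjective (W k))
  exact motive_of_chars (D k) (N.map (QuotientGroup.mk' (W k))) (h1 k) ρ m hm hfix
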