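import Pool.Agent.Helper503_CP.LayMot

/-!
# Artin motives at zeros of small order: layers with long orbits

`Pool.Agent.H541R3.ART.Irr G` is the set of irreducible complex characters of the finite group `G`.

`Pool.Agent.H541R3.ART.ArtinData G s₀` is a family of functions with the formal properties of the
Artin L-functions of a Galois extension `E/K` with group `G` near a point `s₀ ≠ 1`: functions
`L χ` for the irreducible characters `χ` of `G` and `Lin H ψ` for the linear characters `ψ` of the
subgroups `H`, such that `L χ` is meromorphic and not identically zero near `s₀` (Brauer), `Lin H ψ`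
has no pole at `s₀` (Artin reciprocity and Hecke), and `Lin H ψ` is the product of the
`L χ ^ ⟨χ|_H, ψ⟩` (induction). In particular `Lin ⊥ 1` stands for the Dedekind zeta function of `E`.

For `K = ℚ` an Artin motive `M` over `ℚ` with rational coefficients which is trivialised by `E` is
the same as a representation `V` of `G` over `ℚ`, and `L(M, s)` is the product of the
`L χ ^ ⟨V, χ⟩`. It is a Chow motive of a variety of dimension zero. The field `K` may be any number
field.

`Pool.Agent.Helper503_CP.BuiltW r N` says that the normal subgroup `N` of `G` is obtained from the
trivial subgroup by finitely many steps `M ≤ N` of the following two kinds.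
* `LayW r`: `N / M` is a normal subgroup of `G / M`, generated by the commutator subgroups of finitely
  many pairwise commuting subgroups `X i` of `G / M` with weights `μ i`, and the sum of the weights
  over every nonempty set of indices which is closed under conjugation by `G / M` is greater than `r`.
* `Pool.Agent.W295.Cl.Orb r`: `N / M` is abelian and every nontrivial linear character of `N / M` has
  more than `r` conjugates under `G / M`.

Every group `X` has the weight two. The weight `μ` is allowed for `X` (`Pool.Agent.Helper503_CP.Weight`)
if `X` is a quotient of a finite group on the list `FacO (μ - 1)` of the starting files (for example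
`SL_n(q)` with `q` odd and `3 ≤ μ ≤ n`, or the alternating group `A_m` with `m ≥ 5` and
`μ ≤ (2 ^ j - 1) ⌊m / 2 ^ j⌋` for some `j ≥ 2`), or if every Heilbronn function on `X` of degree less
than `μ` is constant on the commutator subgroup of `X`. A Heilbronn function is a class function whose
restriction to every subgroup has a nonnegative integer multiplicity against every linear character;
its degree is its value at `1`.

For example, `N / M` may be a nonabelian chief factor of `G` which is the product of more than `r / 2`
simple groups; or `G` is a wreath product `X ≀ P` over a transitive group `P` of degree `n > r / 2`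
with any group `X`, `M = 1` and `N` is the product of the `n` conjugates of `[X, X]`.
-/

set_option autoImplicit false

open Pool.Agent.H541R3.ART Pool.Agent.Helper503_CP

/-- Let `G` be the Galois group of `E/K`, let `r` be the order of `ζ_E` at `s₀`, and let `N` be a
normal subgroup of `G` built as above.

(1) `L χ` has neither a zero nor a pole at `s₀` for every irreducible character `χ` of `G` which is
nontrivial on `N`.

(2) The L-function of the motive given by a representation `V` of `G` over `ℚ` without nonzero
`N`-fixed vectors has neither a zero nor a pole at `s₀`. If the irreducible characters of `G` which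
are trivial on `N` are monomial, then the L-functions of all Artin motives trivialised by `E` are
holomorphic at `s₀`. -/
theorem Pool.Agent.Results.MP_148101_nt.OrbitLayers.result
    (G : Type) [Group G] [Finite G] (s₀ : ℂ) (A : ArtinData G s₀) (r : ℕ)
    (hr : meromorphicOrderAt (A.Lin ⊥ 1) s₀ = (r : WithTop ℤ)) (N : Subgroup G)
    (hN : BuiltW r N) :
    (∀ χ ∈ Irr G, (∃ n ∈ N, χ n ≠ χ 1) → meromorphicOrderAt (A.L χ) s₀ = 0) ∧
    (∀ (V : Type) [AddCommGroup V] [Module ℚ V] [FiniteDimensional ℚ V]
      (ρ : Representation ℚ G V) (m : (G → ℂ) → ℕ),
      (∀ χ ∈ Irr G,
        ∑ᶠ g : G, ((ρ.character g : ℚ) : ℂ) * χ g⁻¹ = (m χ : ℂ) * (Nat.card G : ℂ)) →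
      ((∀ v, (∀ n ∈ N, ρ n v = v) → v = 0) →
        meromorphicOrderAt (fun s => ∏ᶠ χ ∈ Irr G, A.L χ s ^ m χ) s₀ = 0) ∧
      ((∀ χ ∈ Irr G, (∀ n ∈ N, χ n = χ 1) → IsMonomialChar χ) →
        0 ≤ meromorphicOrderAt (fun s => ∏ᶠ χ ∈ Irr G, A.L χ s ^ m χ) s₀)) :=
  ⟨fun χ hχ => (artin_builtW A hr N hN χ hχ).1,
    fun _ _ _ _ ρ m hm => motive_layers A hr N hN ρ m hm⟩
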